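import Pool.Agent.Lib.MP_0b0399_co.Proof

namespace Pool.Agent.Results.MP_0b0399_co.DiamondFive

open Pool.Agent.Lib.MP_0b0399_co

/-- For some `d ≥ 2`, neither the weak nor the strong ratio for the diamond `Bool × Bool`
tends to `2 + 1/d`. -/
theorem result :
    ∃ d : ℕ, 2 ≤ d ∧
      ¬ Filter.Tendsto (fun k : ℕ => (La k d (Bool × Bool) : ℝ) / (width k d : ℝ)) Filter.atTop
        (nhds (2 + 1 / (d : ℝ))) ∧
      ¬ Filter.Tendsto (fun k : ℕ => (LaStrong k d (Bool × Bool) : ℝ) / (width k d : ℝ))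
        Filter.atTop (nhds (2 + 1 / (d : ℝ))) :=
  ⟨5, by norm_num, not_tendsto _ fun _ => le_rfl, not_tendsto _ fun k => La_le_LaStrong k 5 _⟩

end Pool.Agent.Results.MP_0b0399_co.DiamondFive
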